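import Pool.Agent.N979.CP.FB
import Pool.Agent.N225.FB_LO2
import Pool.Agent.N985.FB_LO3

/-!
# Orientable nonshortcutting fillings of the round sphere: larger constants in low dimensions

`M` is a compact oriented Riemannian manifold of dimension `d + 1`, of any topology, whose boundary is
a sphere `S^d`; the distance in `M` of boundary points is at least their spherical distance. The
functions `arcsin (t ⟨x, θ⟩) / R` on the boundary extend to `1/R`-Lipschitz functions `g_θ` on `M`
with `|∫ g_θ θ dθ| ≤ zf d s`, if `zf d t = R zf d s`. The calibration which shows that the round caps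
of radius `arcsin s` are minimal fillings, applied to these functions, gives the lower bound
`low d s t R` for the volume of `M`. For `s → 0` it is the constant of `AllFillings`; for `d = 2` and
`d = 3` suitable `s, t` give more than `0.82` and `0.73` times the volume of the hemisphere.
-/

set_option autoImplicit false

open MeasureTheory Metric Set InnerProductGeometry

namespace Pool.Agent.Results.MP_aeade1_gt.OrientableConstants

open Pool.Agent.H241R3.FV Pool.Agent.N526.CP Pool.Agent.N979.CP

/-- Boundary points are not closer in `M` than in the round sphere. -/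
def NonShort {d : ℕ} {M : Type} [MetricSpace M] (S : OFill (d + 1) M) : Prop :=
  ∀ x y : Sph (d + 1), angle (x : E (d + 1)) (y : E (d + 1)) ≤ dist (S.bd x) (S.bd y)

/-- The volume of the round hemisphere of dimension `d + 1`: half of the total mass of the surface
measure of the unit sphere of `ℝ^(d+2)`. -/
noncomputable def hemi (d : ℕ) : ENNReal := (volume : Measure (E (d + 2))).toSphere univ / 2

/-- The admissible parameters `s`. -/
def Adm (d : ℕ) (s : ℝ) : Prop :=
  (d + 4) * s ^ 4 ≤ 2 ∨ (d = 2 ∧ s ≤ 22 / 25) ∨ (d = 3 ∧ s ≤ 33 / 40) ∨ Good2 d s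

/-- Let `M` be a compact oriented Riemannian manifold of dimension `d + 1` with boundary `S^d`, in
which boundary points are not closer than in `S^d`. Then `vol M ≥ low d s t R` if `0 < s < 1`,
`0 < t < 1`, `R = zf d t / zf d s` (`Par`) and `s` is admissible (`Adm`). The volume of `M` is at
least `0.82 vol (S³) / 2` for `d = 2`, and at least `0.73 vol (S⁴) / 2` for `d = 3`. -/
theorem result (d : ℕ) (hd : 1 ≤ d) (M : Type) [MetricSpace M] [CompactSpace M]
    (S : OFill (d + 1) M) (hS : NonShort S) :
    (∀ s t R : ℝ, Adm d s → Par d s t R → ENNReal.ofReal (low d s t R) ≤ S.vol) ∧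
    (d = 2 → ENNReal.ofReal (41 / 50) * hemi d ≤ S.vol) ∧
    (d = 3 → ENNReal.ofReal (73 / 100) * hemi d ≤ S.vol) := by
  refine ⟨fun s t R hs hP => FB.bound hd S hS ?_ hP, ?_, ?_⟩
  · rcases hs with h | h | h | h
    · exact Or.inr (Or.inr (Or.inl h))
    · exact Or.inl h
    · exact Or.inr (Or.inl h)
    · exact Or.inr (Or.inr (Or.inr h))
  · rintro rfl
    exact FB.two (Pool.Agent.N225.FBLO2.main Pool.Agent.N615.FBZF2.main
      Pool.Agent.N622.FBJJ.main) S hS
  · rintro rfl
    exact FB.three (Pool.Agent.N985.FBLO3.main Pool.Agent.N615.FBZF3.main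
      Pool.Agent.N622.FBJJ.main3) S hS

end Pool.Agent.Results.MP_aeade1_gt.OrientableConstants
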