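import Pool.Agent.N526.CP.Reg

/-!
# Regions of round caps are minimal fillings in every dimension

Let `n = d + 1 ≥ 2`.  A point of the open hemisphere of `S^n` is described by its orthogonal projection
`X ∈ ℝⁿ`, `|X| < 1`.  Let `F` be a Lipschitz map of the closed unit ball of `ℝⁿ` to the ball of radius `s`
(the round cap of radius `arcsin s`).  For `θ` in the unit sphere `S^d` of `ℝⁿ` let `g_θ` be a 1-Lipschitz
extension to the filling `M` of the boundary function `x ↦ arcsin ⟨F x, θ⟩` (the signed distance of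
the point `F x` of the cap from the great hypersphere with pole `θ`).  The map
`X = Z⁻¹ (∫ g_θ θ dθ)`, `Z(X) = ∫ arcsin ⟨X, θ⟩ θ dθ`, maps `M` to the ball of radius `s`: for the
extension `inf_x (arcsin ⟨F x, θ⟩ + d(q, x))` one has `g_θ(q) - g_θ'(q) ≤ 2 arcsin (s ⟨e, θ⟩)` if `θ'` is
the mirror image of `θ` in `e^⊥`.  The form
`n ∫ det D(U_θ(X) + g_θ θ) dθ - (n - 1) det DX / √(1 - |X|²)`,
`U_θ(X) = (X - ⟨X, θ⟩ θ) / √(1 - ⟨X, θ⟩²)`, is a sum of null Lagrangians, it is the volume form on the
cap, and its comass is at most one: with `K = ∫ p ⊗ a`, `B = n ∫ ν ⊗ a` (`|a| ≤ 1` the gradients of the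
`g_θ`) it is `tr (adj K B) - (n - 1) det K`, a sum of determinants of matrices whose rows are estimated
by Bessel's inequality and Hadamard's inequality (with weights `p_r`, `p_t`, `p_r + (n - 1) p_t = 1`, for
the radial and the tangential directions) if the radius is in the stated range.
-/

set_option autoImplicit false

open MeasureTheory Metric Set InnerProductGeometry

namespace Pool.Agent.Results.MP_aeade1_gt.RoundRegions

open Pool.Agent.H241R3.FV Pool.Agent.N526.CP Pool.Agent.N979.CP

/-- The admissible sines `s` of the radius in dimension `d + 1`: `d = 1` and `s ≤ 0.947`; `d = 2` and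
`s ≤ 0.88`; `d = 3` and `s ≤ 0.825`; `(d + 4) s⁴ ≤ 2`; `s < 1` and `d ≤ q³ + d q` with `q = √(1 - s⁴)`;
`Good2 d s`. -/
def Adm (d : ℕ) (s : ℝ) : Prop :=
  (d = 1 ∧ s ≤ 947 / 1000) ∨ (d = 2 ∧ s ≤ 22 / 25) ∨ (d = 3 ∧ s ≤ 33 / 40) ∨
    (d + 4) * s ^ 4 ≤ 2 ∨ (s < 1 ∧ (d : ℝ) ≤ √(1 - s ^ 4) ^ 3 + d * √(1 - s ^ 4)) ∨ Good2 d s

/-- `F` is a Lipschitz map of the closed unit ball to the closed ball of radius `s`, i.e. to the round
cap of radius `arcsin s`, and the distances in `M` of the boundary points are at least the distances in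
the sphere of their images. -/
structure Dominates {d : ℕ} {M : Type} [MetricSpace M] (S : OFill (d + 1) M) (s : ℝ)
    (F : E (d + 1) → E (d + 1)) : Prop where
  lip : ∃ L : NNReal, LipschitzOnWith L F (closedBall 0 1)
  range : ∀ y ∈ closedBall (0 : E (d + 1)) 1, ‖F y‖ ≤ s
  dist_le : ∀ x y : Sph (d + 1), hdist (F x) (F y) ≤ dist (S.bd x) (S.bd y)

/-- The oriented volume, in the round metric, of the map `F` of the unit ball to the cap. -/
noncomputable def mapVol {d : ℕ} (F : E (d + 1) → E (d + 1)) : ℝ :=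
  ∫ y in ball (0 : E (d + 1)) 1, (fderiv ℝ F y).det * (√(1 - ‖F y‖ ^ 2))⁻¹

/-- The volume, in the round metric, of a subset of the hemisphere. -/
noncomputable def setVol {d : ℕ} (R : Set (E (d + 1))) : ℝ := ∫ X in R, (√(1 - ‖X‖ ^ 2))⁻¹

/-- The cap inequality: if `M` has at least the boundary distances of the round cap of radius `ρ` of
`S^(d+1)`, then the volume of `M` is at least the volume `vol(S^d) ∫₀^ρ sin^d` of the cap. -/
def CapIneq {d : ℕ} {M : Type} [MetricSpace M] [CompactSpace M] (S : OFill (d + 1) M) (ρ : ℝ) :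
    Prop :=
  (∀ x y, capDist ρ x y ≤ dist (S.bd x) (S.bd y)) →
    ENNReal.ofReal ((sig (d + 1)).real univ * ∫ t in (0 : ℝ)..ρ, Real.sin t ^ d) ≤ S.vol

/-- The hemisphere inequality: if the union of `M` and of the round collar `{ρ ≤ r ≤ π/2}` of the
boundary of the hemisphere is a nonshortcutting filling of the round sphere `S^d`, then its volume is at
least the volume `vol(S^(d+1)) / 2` of the hemisphere. -/
def HemiIneq {d : ℕ} {M : Type} [MetricSpace M] [CompactSpace M] (S : OFill (d + 1) M) (ρ : ℝ) :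
    Prop :=
  RoundCollar S ρ → (volume : Measure (E (d + 2))).toSphere univ / 2 ≤ S.vol + ENNReal.ofReal
    ((sig (d + 1)).real univ * ∫ t in ρ..(Real.pi / 2), Real.sin t ^ d)

/-- Let `d ≥ 1` and let `s > 0` be admissible.  Let `M` be a compact oriented Riemannian manifold of
dimension `d + 1`, of any topology, with boundary `S^d`.
(1) Let `F` be a Lipschitz map of the closed unit ball of `ℝ^(d+1)` to the round cap of radius `arcsin s`
of `S^(d+1)`.  If the distances in `M` of the boundary points are at least the distances in `S^(d+1)` of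
their images, then the volume of `M` is at least the oriented volume of `F`; if `F` is injective on the
open ball and its Jacobian is almost everywhere nonnegative, this is the volume of the image.
(2) Let `sin ρ = s`.  If `M` has at least the boundary distances of the round cap of radius `ρ` of
`S^(d+1)`, then the volume of `M` is at least the volume of the cap.
(3) If the union of `M` and of the round collar `{ρ ≤ r ≤ π/2}` of the boundary of the hemisphere is a
nonshortcutting filling of the round sphere `S^d`, then its volume is at least the volume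
`vol(S^(d+1)) / 2` of the hemisphere. -/
theorem result (d : ℕ) (hd : 1 ≤ d) (s : ℝ) (h0 : 0 < s) (hs : Adm d s)
    (M : Type) [MetricSpace M] [CompactSpace M] (S : OFill (d + 1) M) :
    (∀ F : E (d + 1) → E (d + 1), Dominates S s F → ENNReal.ofReal (mapVol F) ≤ S.vol ∧
      (InjOn F (ball 0 1) →
        (∀ᵐ y ∂(volume.restrict (ball (0 : E (d + 1)) 1)), 0 ≤ (fderiv ℝ F y).det) →
        ENNReal.ofReal (setVol (F '' ball 0 1)) ≤ S.vol)) ∧
    ∀ ρ : ℝ, 0 < ρ → ρ < Real.pi / 2 → Real.sin ρ = s → CapIneq S ρ ∧ HemiIneq S ρ := by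
  refine ⟨fun F hF => ?_, fun ρ hρ0 hρ1 hρ => ?_⟩
  · obtain ⟨⟨L, hL⟩, hr, hbd⟩ := hF
    have h : ENNReal.ofReal (mapVol F) ≤ S.vol := Reg.reg hd h0 hs M S F L hL hr hbd
    refine ⟨h, fun hinj hdet => ?_⟩
    have e : setVol (F '' ball 0 1) = mapVol F := (INJF2.t d F L hL hinj hdet).symm
    rwa [e]
  · subst hρ
    exact ⟨Reg.cap hd hρ0 hρ1 hs M S, HEM.t d hd ρ hρ0 hρ1 (Reg.cap hd hρ0 hρ1 hs) M S⟩

end Pool.Agent.Results.MP_aeade1_gt.RoundRegions
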